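import Pool.Agent.FB.Final

set_option autoImplicit false

namespace Pool.Agent.Results.MP_93ce62_an.PairsWithoutBAI

open WeakDual Pool.Agent.FB

/-- For every `n` there is a commutative complex Banach algebra `A` in the class `𝒞` which is
semisimple and Tauberian, in which any at most `n` elements factor simultaneously with the
constant `5`, which satisfies (F-pairs) and (F-sums), and which has no bounded approximate
identity. -/
theorem result (n : ℕ) : ∃ (A : Type) (_ : NonUnitalNormedCommRing A) (_ : NormedSpace ℂ A)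
    (_ : IsScalarTower ℂ A A) (_ : SMulCommClass ℂ A A) (_ : CompleteSpace A),
    ClassC A ∧ Semisimple A ∧ FiniteSupportDense A ∧
    (∀ k ≤ n, FactorN A k 5) ∧ FPairs A ∧ FSums A ∧ ¬ HasBAI A := by
  refine exists_bundle (E := EE (n + 2)) (fun A _ _ => ClassC A ∧ Semisimple A ∧
    FiniteSupportDense A ∧ (∀ k ≤ n, FactorN A k 5) ∧ FPairs A ∧ FSums A ∧ ¬ HasBAI A)
    ⟨⟨regular _, discrete _⟩, semisimple _, tauberian _, fun k hk => ?_, ?_, ?_, not_bai _⟩
  · exact (factorN (n + 2)).mono (by omega)
  · exact ⟨5, by norm_num, (factorN (n + 2)).mono (by omega), (factorN (n + 2)).mono (by omega)⟩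
  · refine ⟨5, by norm_num, fun a => ?_⟩
    obtain ⟨b, c, hc⟩ := (factorN (n + 2)).mono (n := 1) (by omega) fun _ => a
    refine ⟨b, c 0, 0, 0, ?_, ?_⟩
    · rw [mul_zero, add_zero]; exact (hc 0).1
    · rw [norm_zero, zero_mul, add_zero]; exact (hc 0).2

end Pool.Agent.Results.MP_93ce62_an.PairsWithoutBAI
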